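import Pool.Agent.helper29.NS.Spec2

/-!
# Project ns, module HZ: the second derivatives vanish at the boundary
-/

namespace NS

open MeasureTheory Filter Topology Set

theorem HZ_lin {T1 T2 A B : ℝ} (hT : T1 ^ 2 + T2 ^ 2 ≠ 0) (h1 : T1 * A + T2 * B = 0)
    (h2 : T1 * B - T2 * A = 0) : A = 0 ∧ B = 0 := by
  constructor
  · have : (T1 ^ 2 + T2 ^ 2) * A = 0 := by linear_combination T1 * h1 - T2 * h2
    rcases mul_eq_zero.1 this with h | h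
    · exact absurd h hT
    · exact h
  · have : (T1 ^ 2 + T2 ^ 2) * B = 0 := by linear_combination T2 * h1 + T1 * h2
    rcases mul_eq_zero.1 this with h | h
    · exact absurd h hT
    · exact h

theorem HZ_T (θ u : ℝ) : (Real.cos θ - u * Real.sin θ) ^ 2 + (Real.sin θ + u * Real.cos θ) ^ 2 ≠ 0 := by
  have h : (Real.cos θ - u * Real.sin θ) ^ 2 + (Real.sin θ + u * Real.cos θ) ^ 2 = 1 + u ^ 2 := by
    have := Real.sin_sq_add_cos_sq θ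
    linear_combination (1 + u ^ 2) * this
  rw [h]
  positivity

theorem HZ_ext {E : Type*} [NormedAddCommGroup E] [NormedSpace ℝ E] (L : ℝ × ℝ × ℝ →L[ℝ] E)
    (h1 : L (1, 0, 0) = 0) (h2 : L (0, 1, 0) = 0) (h3 : L (0, 0, 1) = 0) : L = 0 := by
  refine ContinuousLinearMap.ext fun v => ?_
  obtain ⟨x, y, z⟩ := v
  have e : ((x, y, z) : ℝ × ℝ × ℝ) = x • (1, 0, 0) + y • (0, 1, 0) + z • (0, 0, 1) := by
    simp
  rw [e, map_add, map_add, map_smul, map_smul, map_smul, h1, h2, h3]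
  simp

theorem HZ_coord (c : ℝ × ℝ) (θ s r : ℝ) :
    ((pt θ c s r).1 - c.1) * Real.cos θ + ((pt θ c s r).2 - c.2) * Real.sin θ = s := by
  have := Real.sin_sq_add_cos_sq θ
  unfold pt
  linear_combination s * this

theorem HZ_nhds (c : ℝ × ℝ) (θ η : ℝ) (hη : 0 < η) :
    {q : ℝ × ℝ | |(q.1 - c.1) * Real.cos θ + (q.2 - c.2) * Real.sin θ| < η} ∈ 𝓝 c := by
  apply IsOpen.mem_nhds
  · apply isOpen_lt
    · fun_prop
    · fun_prop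
  · simpa using hη

/-- TG in the form of a neighbourhood -/
theorem HZ_TG (h1 : TG_stmt) (h2 : CH_stmt) (Ω : Set (ℝ × ℝ)) (c : ℝ × ℝ) (θ δ : ℝ) (f : ℝ → ℝ)
    (hO : IsOpen Ω) (hC : Chart Ω c θ δ f) (hf : 0 < deriv (deriv f) 0) (V : Set (ℝ × ℝ))
    (hV : V ∈ 𝓝 c) (F : ℝ × ℝ × ℝ → ℝ) (hF : Differentiable ℝ F)
    (h0 : ∀ t, ∀ q ∈ frontier Ω ∩ V, F (t, q) = 0) :
    ∃ V' ∈ 𝓝 c, ∀ t, ∀ q ∈ frontier Ω ∩ V', dt F (t, q) = 0 ∧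
      (Real.cos θ - deriv f ((q.1 - c.1) * Real.cos θ + (q.2 - c.2) * Real.sin θ) * Real.sin θ)
        * dx F (t, q)
      + (Real.sin θ + deriv f ((q.1 - c.1) * Real.cos θ + (q.2 - c.2) * Real.sin θ) * Real.cos θ)
        * dy F (t, q) = 0 := by
  obtain ⟨η, hη, hη'⟩ := h1 Ω c θ δ f hO hC V hV F hF h0
  obtain ⟨η2, -, ⟨V2, hV2, hV2'⟩, -⟩ := h2 Ω c θ δ f hO hC hf
  refine ⟨V2 ∩ {q : ℝ × ℝ | |(q.1 - c.1) * Real.cos θ + (q.2 - c.2) * Real.sin θ| < η},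
    inter_mem hV2 (HZ_nhds c θ η hη), ?_⟩
  rintro t q ⟨hq1, hq2, hq3⟩
  obtain ⟨s, -, hs⟩ := hV2' q ⟨hq1, hq2⟩
  have hsq : (q.1 - c.1) * Real.cos θ + (q.2 - c.2) * Real.sin θ = s := by
    rw [hs, HZ_coord]
  have hs3 : |s| < η := by
    rw [← hsq]; exact hq3
  rw [hsq]
  have := hη' t s hs3
  rw [← hs] at this
  exact this

theorem HZ_step2 (h1 : TG_stmt) (h2 : CH_stmt) (Ω : Set (ℝ × ℝ)) (c : ℝ × ℝ) (θ δ : ℝ) (f : ℝ → ℝ)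
    (hO : IsOpen Ω) (hC : Chart Ω c θ δ f) (hf : 0 < deriv (deriv f) 0) (V : Set (ℝ × ℝ))
    (hV : V ∈ 𝓝 c) (F : ℝ × ℝ × ℝ → ℝ) (hF : ContDiff ℝ 3 F)
    (h0 : ∀ t, ∀ q ∈ frontier Ω ∩ V, F (t, q) = 0 ∧ fderiv ℝ F (t, q) = 0)
    (hl : ∀ t, ∀ q ∈ frontier Ω, dx (dx F) (t, q) + dy (dy F) (t, q) = 0) :
    ∃ V' ∈ 𝓝 c, ∀ t, ∀ q ∈ frontier Ω ∩ V', F (t, q) = 0 ∧ fderiv ℝ F (t, q) = 0 ∧
      fderiv ℝ (fderiv ℝ F) (t, q) = 0 := by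
  have hF1 : Differentiable ℝ (fderiv ℝ F) :=
    (hF.fderiv_right (m := 2) (by norm_num)).differentiable (by norm_num)
  have hd : ∀ v : ℝ × ℝ × ℝ, Differentiable ℝ (fun z => fderiv ℝ F z v) := fun v =>
    hF1.clm_apply (differentiable_const v)
  have hz : ∀ v : ℝ × ℝ × ℝ, ∀ t, ∀ q ∈ frontier Ω ∩ V, (fun z => fderiv ℝ F z v) (t, q) = 0 := by
    intro v t q hq
    show fderiv ℝ F (t, q) v = 0
    rw [(h0 t q hq).2]; rfl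
  have ev : ∀ (v w z : ℝ × ℝ × ℝ), fderiv ℝ (fun z => fderiv ℝ F z v) z w =
      fderiv ℝ (fderiv ℝ F) z w v := by
    intro v w z
    rw [fderiv_clm_apply (hF1 z) (differentiableAt_const v)]
    simp
  have hsym : ∀ (v w z : ℝ × ℝ × ℝ), fderiv ℝ (fderiv ℝ F) z w v = fderiv ℝ (fderiv ℝ F) z v w := by
    intro v w z
    exact (hF.contDiffAt.isSymmSndFDerivAt (by norm_num [minSmoothness])) w v
  obtain ⟨V1, hV1, k1⟩ := HZ_TG h1 h2 Ω c θ δ f hO hC hf V hV _ (hd (1, 0, 0)) (hz _)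
  obtain ⟨V2, hV2, k2⟩ := HZ_TG h1 h2 Ω c θ δ f hO hC hf V hV _ (hd (0, 1, 0)) (hz _)
  obtain ⟨V3, hV3, k3⟩ := HZ_TG h1 h2 Ω c θ δ f hO hC hf V hV _ (hd (0, 0, 1)) (hz _)
  refine ⟨V ∩ (V1 ∩ (V2 ∩ V3)), inter_mem hV (inter_mem hV1 (inter_mem hV2 hV3)), ?_⟩
  rintro t q ⟨hq, hq0, hq1, hq2, hq3⟩
  refine ⟨(h0 t q ⟨hq, hq0⟩).1, (h0 t q ⟨hq, hq0⟩).2, ?_⟩
  have a1 := k1 t q ⟨hq, hq1⟩
  have a2 := k2 t q ⟨hq, hq2⟩
  have a3 := k3 t q ⟨hq, hq3⟩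
  have a4 := hl t q hq
  unfold dt dx dy at a1 a2 a3 a4
  simp only [ev] at a1 a2 a3 a4
  set D := fderiv ℝ (fderiv ℝ F) (t, q) with hD
  have s12 : D (0, 1, 0) (1, 0, 0) = D (1, 0, 0) (0, 1, 0) := hsym _ _ _
  have s13 : D (0, 0, 1) (1, 0, 0) = D (1, 0, 0) (0, 0, 1) := hsym _ _ _
  have s23 : D (0, 0, 1) (0, 1, 0) = D (0, 1, 0) (0, 0, 1) := hsym _ _ _
  have hT := HZ_T θ (deriv f ((q.1 - c.1) * Real.cos θ + (q.2 - c.2) * Real.sin θ))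
  have hk := HZ_lin hT (A := D (0, 1, 0) (0, 1, 0)) (B := D (0, 1, 0) (0, 0, 1))
    (by rw [← s23]; exact a2.2) (by
      have e : D (0, 0, 1) (0, 0, 1) = - D (0, 1, 0) (0, 1, 0) := by linarith
      have := a3.2
      rw [e] at this
      linarith)
  have h33 : D (0, 0, 1) (0, 0, 1) = 0 := by
    have := hk.1; linarith
  refine HZ_ext D ?_ ?_ ?_
  · refine HZ_ext _ a1.1 a2.1 a3.1
  · refine HZ_ext _ (by rw [s12]; exact a2.1) hk.1 hk.2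
  · refine HZ_ext _ (by rw [s13]; exact a3.1) (by rw [s23]; exact hk.2) h33

theorem HZ (h1 : TG_stmt) (h2 : CH_stmt) (h3 : NC_stmt) : HZ_stmt := by
  intro Ω ν a b m n c θ δ f hO hν hDM hC hf V hV hvort
  have hNC := h3 Ω ν a b m n hO hν hDM
  have hda : Differentiable ℝ a := hDM.ca.differentiable (by norm_num)
  have hdb : Differentiable ℝ b := hDM.cb.differentiable (by norm_num)
  obtain ⟨Va, hVa, ka⟩ := HZ_TG h1 h2 Ω c θ δ f hO hC hf V hV a hda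
    (fun t q hq => (hDM.bc t q hq.1).1)
  obtain ⟨Vb, hVb, kb⟩ := HZ_TG h1 h2 Ω c θ δ f hO hC hf V hV b hdb
    (fun t q hq => (hDM.bc t q hq.1).2.1)
  have hW : V ∩ (Va ∩ Vb) ∈ 𝓝 c := inter_mem hV (inter_mem hVa hVb)
  have key : ∀ t, ∀ q ∈ frontier Ω ∩ (V ∩ (Va ∩ Vb)), fderiv ℝ a (t, q) = 0 ∧ fderiv ℝ b (t, q) = 0 := by
    rintro t q ⟨hq, hq0, hq1, hq2⟩
    have a1 := ka t q ⟨hq, hq1⟩
    have b1 := kb t q ⟨hq, hq2⟩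
    have v1 := hvort t q ⟨hq, hq0⟩
    obtain ⟨-, -, -, -, n1, -⟩ := hNC t q hq
    have hT := HZ_T θ (deriv f ((q.1 - c.1) * Real.cos θ + (q.2 - c.2) * Real.sin θ))
    unfold vort at v1
    have e1 : dx b (t, q) = dy a (t, q) := by linarith
    have e2 : dy b (t, q) = - dx a (t, q) := by linarith
    have hk := HZ_lin hT (A := dx a (t, q)) (B := dy a (t, q)) a1.2 (by
      have := b1.2
      rw [e1, e2] at this
      linarith)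
    refine ⟨HZ_ext _ a1.1 hk.1 hk.2, HZ_ext _ b1.1 ?_ ?_⟩
    · show dx b (t, q) = 0
      rw [e1]; exact hk.2
    · show dy b (t, q) = 0
      rw [e2, hk.1, neg_zero]
  obtain ⟨Wa, hWa, ja⟩ := HZ_step2 h1 h2 Ω c θ δ f hO hC hf _ hW a hDM.ca
    (fun t q hq => ⟨(hDM.bc t q hq.1).1, (key t q hq).1⟩) (fun t q hq => (hNC t q hq).2.2.1)
  obtain ⟨Wb, hWb, jb⟩ := HZ_step2 h1 h2 Ω c θ δ f hO hC hf _ hW b hDM.cb
    (fun t q hq => ⟨(hDM.bc t q hq.1).2.1, (key t q hq).2⟩) (fun t q hq => (hNC t q hq).2.2.2.1)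
  refine ⟨Wa ∩ Wb, inter_mem hWa hWb, ?_⟩
  rintro t q ⟨hq, hqa, hqb⟩ F hF
  rcases hF with rfl | rfl
  · exact ja t q ⟨hq, hqa⟩
  · exact jb t q ⟨hq, hqb⟩

end NS
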